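import Pool.Agent.W187.WQ.Fx2

/-!
# Recursion and bounds of the integrals
-/

open MeasureTheory Set
open Pool.Agent.W187.WP Pool.Agent.W187.WQ

namespace Pool.Agent.W305.WQ

theorem umm_cont (m : ℕ) : Continuous (Umm m) := by
  unfold Umm
  fun_prop

theorem umm_bound (m : ℕ) (x : ℝ) (hx : |x| ≤ 1) : |Umm m x| ≤ m / 2 := by
  unfold Umm
  refine le_trans (Finset.abs_sum_le_sum_abs _ _) ?_
  have h : ∀ k ∈ Finset.range m, |x ^ (2 * (k + 1)) / (2 * ((k : ℝ) + 1))| ≤ 1 / 2 := by
    intro k _
    rw [abs_div, abs_pow]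
    have h1 : |x| ^ (2 * (k + 1)) ≤ 1 := pow_le_one₀ (abs_nonneg _) hx
    have h2 : (2 : ℝ) ≤ |2 * ((k : ℝ) + 1)| := by
      have hk : (0 : ℝ) ≤ k := Nat.cast_nonneg _
      rw [abs_of_pos (by positivity)]
      linarith
    exact div_le_div₀ zero_le_one h1 (by norm_num) h2
  refine le_trans (Finset.sum_le_sum h) ?_
  rw [Finset.sum_const, Finset.card_range, nsmul_eq_mul]
  linarith

theorem jv : S_JV := by
  intro m s lo hi
  refine ⟨?_, ?_, ?_⟩
  · intro N j
    unfold Jf
    rw [← intervalIntegral.integral_const_mul, ← intervalIntegral.integral_sub]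
    · refine intervalIntegral.integral_congr fun x _ => ?_
      show (x - s) ^ (N + 1) * x ^ j = (x - s) ^ N * x ^ (j + 1) - s * ((x - s) ^ N * x ^ j)
      ring
    · exact Continuous.intervalIntegrable (by fun_prop) _ _
    · exact Continuous.intervalIntegrable (by fun_prop) _ _
  · intro N j
    have hU := umm_cont m
    unfold Vf
    rw [← intervalIntegral.integral_const_mul, ← intervalIntegral.integral_sub]
    · refine intervalIntegral.integral_congr fun x _ => ?_
      show (x - s) ^ (N + 1) * x ^ j * Umm m x =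
        (x - s) ^ N * x ^ (j + 1) * Umm m x - s * ((x - s) ^ N * x ^ j * Umm m x)
      ring
    · exact Continuous.intervalIntegrable (by fun_prop) _ _
    · exact Continuous.intervalIntegrable (by fun_prop) _ _
  · intro h1 h2 h3 h4 h5
    have hab : ∀ x ∈ uIoc lo hi, |x| ≤ 1 ∧ |x - s| ≤ 1 := by
      intro x hx
      rw [uIoc_of_le h2] at hx
      constructor
      · rw [abs_le]; constructor <;> linarith [hx.1, hx.2]
      · rw [abs_le]; constructor <;> linarith [hx.1, hx.2]
    have hlen : |hi - lo| ≤ 2 := by
      rw [abs_of_nonneg (by linarith)]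
      linarith
    have hp : ∀ x ∈ uIoc lo hi, ∀ N j : ℕ, |(x - s) ^ N * x ^ j| ≤ 1 := by
      intro x hx N j
      obtain ⟨ha, hb⟩ := hab x hx
      rw [abs_mul, abs_pow, abs_pow]
      exact mul_le_one₀ (pow_le_one₀ (abs_nonneg _) hb) (by positivity)
        (pow_le_one₀ (abs_nonneg _) ha)
    constructor
    · intro N j
      unfold Jf
      have := intervalIntegral.norm_integral_le_of_norm_le_const (a := lo) (b := hi) (C := 1)
        (f := fun x => (x - s) ^ N * x ^ j) (fun x hx => hp x hx N j)
      rw [Real.norm_eq_abs] at this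
      linarith
    · intro N j
      unfold Vf
      have := intervalIntegral.norm_integral_le_of_norm_le_const (a := lo) (b := hi)
        (C := (m : ℝ) / 2)
        (f := fun x => (x - s) ^ N * x ^ j * Umm m x) (fun x hx => by
          have h6 := hp x hx N j
          have h7 := umm_bound m x (hab x hx).1
          rw [Real.norm_eq_abs, abs_mul]
          calc |(x - s) ^ N * x ^ j| * |Umm m x| ≤ 1 * (m / 2) :=
                mul_le_mul h6 h7 (abs_nonneg _) zero_le_one
            _ = m / 2 := one_mul _)
      rw [Real.norm_eq_abs] at this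
      have hm : (0 : ℝ) ≤ (m : ℝ) / 2 := by positivity
      nlinarith

end Pool.Agent.W305.WQ
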