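import Pool.Agent.W187.WQ.Fx2

/-!
# Moments on a real interval
-/

open MeasureTheory Set
open Pool.Agent.W187.WP Pool.Agent.W187.WQ

namespace Pool.Agent.W305.WQ

/-- floor division -/
theorem ediv_err (a b : ℤ) (hb : 0 < b) : |(a : ℝ) / (b : ℝ) - ((a / b : ℤ) : ℝ)| ≤ 1 := by
  have hbR : (0 : ℝ) < b := by exact_mod_cast hb
  have e1 := Int.emod_add_mul_ediv a b
  have e2 := Int.emod_nonneg a (ne_of_gt hb)
  have e3 := Int.emod_lt_of_pos a hb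
  have e1' : ((a % b : ℤ) : ℝ) + (b : ℝ) * ((a / b : ℤ) : ℝ) = a := by exact_mod_cast e1
  have e2' : (0 : ℝ) ≤ ((a % b : ℤ) : ℝ) := by exact_mod_cast e2
  have e3' : ((a % b : ℤ) : ℝ) < b := by exact_mod_cast e3
  have : (a : ℝ) / (b : ℝ) - ((a / b : ℤ) : ℝ) = ((a % b : ℤ) : ℝ) / b := by
    field_simp
    linarith
  rw [this, abs_div, abs_of_pos hbR, abs_of_nonneg e2', div_le_one hbR]
  exact e3'.le

/-- one multiplication -/
theorem step_err (D lo p : ℤ) (r : ℝ) (j : ℕ) (hD : 0 < D) (h3 : 3 * (j : ℤ) ≤ D)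
    (hl : |(D : ℝ) * r - (lo : ℝ)| ≤ 1) (hr : |r| ≤ 1) (hp : |(D : ℝ) * r ^ j - (p : ℝ)| ≤ 3 * j) :
    |(D : ℝ) * r ^ (j + 1) - ((p * lo / D : ℤ) : ℝ)| ≤ 3 * ((j : ℝ) + 1) := by
  have hDR : (0 : ℝ) < D := by exact_mod_cast hD
  have h3R : 3 * (j : ℝ) ≤ D := by exact_mod_cast h3
  have hj : (0 : ℝ) ≤ j := Nat.cast_nonneg _
  have e1 := ediv_err (p * lo) D hD
  push_cast at e1
  have hrj : |r ^ j| ≤ 1 := by
    rw [abs_pow]
    exact pow_le_one₀ (abs_nonneg _) hr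
  have hpabs : |(p : ℝ)| ≤ 2 * D := by
    have : |(D : ℝ) * r ^ j| ≤ D := by
      rw [abs_mul, abs_of_pos hDR]
      nlinarith
    have h4 : (p : ℝ) = (D : ℝ) * r ^ j - ((D : ℝ) * r ^ j - (p : ℝ)) := by ring
    rw [h4]
    refine le_trans (abs_sub _ _) ?_
    linarith
  have e2 : |(D : ℝ) * r ^ (j + 1) - (p : ℝ) * lo / D| ≤ 3 * j + 2 := by
    have h5 : (D : ℝ) * r ^ (j + 1) - (p : ℝ) * lo / D =
        r * ((D : ℝ) * r ^ j - (p : ℝ)) + (p : ℝ) / D * ((D : ℝ) * r - lo) := by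
      field_simp
      ring
    rw [h5]
    refine le_trans (abs_add_le _ _) ?_
    rw [abs_mul, abs_mul, abs_div, abs_of_pos hDR]
    have h6 : |r| * |(D : ℝ) * r ^ j - (p : ℝ)| ≤ 1 * (3 * j) :=
      mul_le_mul hr hp (abs_nonneg _) zero_le_one
    have h7 : |(p : ℝ)| / D ≤ 2 := by
      rw [div_le_iff₀ hDR]
      exact hpabs
    have h8 : |(p : ℝ)| / D * |(D : ℝ) * r - lo| ≤ 2 * 1 :=
      mul_le_mul h7 hl (abs_nonneg _) (by norm_num)
    linarith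
  have e3 := abs_sub_le ((D : ℝ) * r ^ (j + 1)) ((p : ℝ) * lo / D) ((p * lo / D : ℤ) : ℝ)
  linarith

theorem jf_pow (lo hi : ℝ) (j : ℕ) :
    Jf 0 lo hi 0 j = (hi ^ (j + 1) - lo ^ (j + 1)) / ((j : ℝ) + 1) := by
  unfold Jf
  simp [integral_pow]

theorem mrow_gen (D lo hi : ℤ) (lor hir : ℝ) (hD : 0 < D)
    (h1 : |(D : ℝ) * lor - (lo : ℝ)| ≤ 1) (h2 : |(D : ℝ) * hir - (hi : ℝ)| ≤ 1)
    (h3 : |lor| ≤ 1) (h4 : |hir| ≤ 1) : ∀ (c j : ℕ) (pl ph : ℤ),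
    3 * ((j : ℤ) + c) ≤ D →
    |(D : ℝ) * lor ^ j - (pl : ℝ)| ≤ 3 * j → |(D : ℝ) * hir ^ j - (ph : ℝ)| ≤ 3 * j →
    Apx D 7 (Jf 0 lor hir 0) j (mrow D lo hi c j pl ph)
  | 0, _, _, _, _, _, _ => trivial
  | c + 1, j, pl, ph, hc, hl, hh => by
      have hc' : 3 * (j : ℤ) ≤ D := by push_cast at hc; linarith [Int.natCast_nonneg c]
      have s1 := step_err D lo pl lor j hD hc' h1 h3 hl
      have s2 := step_err D hi ph hir j hD hc' h2 h4 hh
      refine ⟨?_, ?_⟩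
      · rw [jf_pow]
        have hj1 : (0 : ℝ) < (j : ℝ) + 1 := by positivity
        have e1 := ediv_err (ph * hi / D - pl * lo / D) ((j : ℤ) + 1) (by positivity)
        push_cast at e1
        have e2 : |(D : ℝ) * ((hir ^ (j + 1) - lor ^ (j + 1)) / ((j : ℝ) + 1)) -
            (((ph * hi / D : ℤ) : ℝ) - ((pl * lo / D : ℤ) : ℝ)) / ((j : ℝ) + 1)| ≤ 6 := by
          have h5 : (D : ℝ) * ((hir ^ (j + 1) - lor ^ (j + 1)) / ((j : ℝ) + 1)) -
              (((ph * hi / D : ℤ) : ℝ) - ((pl * lo / D : ℤ) : ℝ)) / ((j : ℝ) + 1) =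
              (((D : ℝ) * hir ^ (j + 1) - ((ph * hi / D : ℤ) : ℝ)) -
              ((D : ℝ) * lor ^ (j + 1) - ((pl * lo / D : ℤ) : ℝ))) / ((j : ℝ) + 1) := by
            ring
          rw [h5, abs_div, abs_of_pos hj1, div_le_iff₀ hj1]
          refine le_trans (abs_sub _ _) ?_
          linarith
        have e3 := abs_sub_le ((D : ℝ) * ((hir ^ (j + 1) - lor ^ (j + 1)) / ((j : ℝ) + 1)))
          ((((ph * hi / D : ℤ) : ℝ) - ((pl * lo / D : ℤ) : ℝ)) / ((j : ℝ) + 1))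
          (((ph * hi / D - pl * lo / D) / ((j : ℤ) + 1) : ℤ) : ℝ)
        linarith
      · refine mrow_gen D lo hi lor hir hD h1 h2 h3 h4 c (j + 1) _ _ ?_ ?_ ?_
        · push_cast at hc ⊢
          linarith
        · push_cast
          exact s1
        · push_cast
          exact s2

theorem mrow_ok : S_MROW := by
  intro D lo hi lor hir c hD hc h1 h2 h3 h4
  refine mrow_gen D lo hi lor hir hD h1 h2 h3 h4 c 0 D D ?_ ?_ ?_
  · simpa using hc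
  · simp
  · simp

end Pool.Agent.W305.WQ
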