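import Pool.Agent.W187.WQ.Fx2

/-!
# Moments against the potential on an interval
-/

open MeasureTheory Set
open Pool.Agent.W187.WP Pool.Agent.W187.WQ

namespace Pool.Agent.W305.WQ

theorem apx_tail (D ε : ℝ) (f : ℕ → ℝ) (k : ℕ) (l : List ℤ) (h : Apx D ε f k l) :
    Apx D ε f (k + 1) l.tail := by
  cases l with
  | nil => exact trivial
  | cons a l => exact h.2

/-- error of one floor division -/
theorem floor_err (x ε : ℝ) (a : ℤ) (i : ℕ) (hi : 1 ≤ i) (hε : 0 ≤ ε) (h : |x - a| ≤ ε) :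
    |x / (2 * (i : ℝ)) - ((a / (2 * (i : ℤ)) : ℤ) : ℝ)| ≤ ε / 2 + 1 := by
  have hi' : (1 : ℝ) ≤ i := by exact_mod_cast hi
  have hpos : (0 : ℤ) < 2 * (i : ℤ) := by omega
  have hposR : (0 : ℝ) < 2 * (i : ℝ) := by positivity
  have h1 : |x / (2 * (i : ℝ)) - (a : ℝ) / (2 * (i : ℝ))| ≤ ε / 2 := by
    rw [← sub_div, abs_div, abs_of_pos hposR]
    calc |x - a| / (2 * (i : ℝ)) ≤ ε / (2 * (i : ℝ)) := by gcongr
      _ ≤ ε / 2 := by
        apply div_le_div_of_nonneg_left hε (by norm_num) (by linarith)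
  have e1 := Int.emod_add_mul_ediv a (2 * (i : ℤ))
  have e2 := Int.emod_nonneg a (ne_of_gt hpos)
  have e3 := Int.emod_lt_of_pos a hpos
  have e1' : ((a % (2 * (i : ℤ)) : ℤ) : ℝ) + (2 * (i : ℝ)) * ((a / (2 * (i : ℤ)) : ℤ) : ℝ) = a := by
    exact_mod_cast e1
  have e2' : (0 : ℝ) ≤ ((a % (2 * (i : ℤ)) : ℤ) : ℝ) := by exact_mod_cast e2
  have e3' : ((a % (2 * (i : ℤ)) : ℤ) : ℝ) < 2 * (i : ℝ) := by exact_mod_cast e3
  have h2 : |(a : ℝ) / (2 * (i : ℝ)) - ((a / (2 * (i : ℤ)) : ℤ) : ℝ)| ≤ 1 := by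
    have : (a : ℝ) / (2 * (i : ℝ)) - ((a / (2 * (i : ℤ)) : ℤ) : ℝ) =
        ((a % (2 * (i : ℤ)) : ℤ) : ℝ) / (2 * (i : ℝ)) := by
      field_simp
      linarith
    rw [this, abs_div, abs_of_pos hposR, abs_of_nonneg e2', div_le_one hposR]
    exact e3'.le
  calc |x / (2 * (i : ℝ)) - ((a / (2 * (i : ℤ)) : ℤ) : ℝ)|
      ≤ |x / (2 * (i : ℝ)) - (a : ℝ) / (2 * (i : ℝ))| +
        |(a : ℝ) / (2 * (i : ℝ)) - ((a / (2 * (i : ℤ)) : ℤ) : ℝ)| := abs_sub_le _ _ _
    _ ≤ ε / 2 + 1 := add_le_add h1 h2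

theorem us2_err (D : ℝ) (ε : ℝ) (f : ℕ → ℝ) (hε : 0 ≤ ε) : ∀ (m i k : ℕ) (l : List ℤ), 1 ≤ i →
    2 * m ≤ l.length + 1 → Apx D ε f k l →
    |D * (∑ t ∈ Finset.range m, f (k + 2 * t) / (2 * ((i : ℝ) + t))) - ((us2 i m l : ℤ) : ℝ)| ≤
      m * (ε / 2 + 1)
  | 0, i, k, l, _, _, _ => by simp [us2]
  | m + 1, i, k, [], _, h, _ => by
      exfalso
      simp only [List.length_nil] at h
      omega
  | m + 1, i, k, [a], hi, h, hA => by
      have hm : m = 0 := by simp at h; omega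
      subst hm
      have h1 := hA.1
      have := floor_err (D * f k) ε a i hi hε h1
      simp only [us2, zero_add, Finset.sum_range_one, mul_zero, add_zero, Nat.cast_zero,
        Nat.cast_one, one_mul]
      rw [← mul_div_assoc]
      exact this
  | m + 1, i, k, a :: b :: l, hi, h, hA => by
      have h1 := hA.1
      have h2 : Apx D ε f (k + 1 + 1) l := hA.2.2
      have e := floor_err (D * f k) ε a i hi hε h1
      have ih := us2_err D ε f hε m (i + 1) (k + 1 + 1) l (by omega)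
        (by simp only [List.length_cons] at h; omega) h2
      rw [Finset.sum_range_succ']
      have hs : ∑ t ∈ Finset.range m, f (k + 2 * (t + 1)) / (2 * ((i : ℝ) + ((t + 1 : ℕ) : ℝ))) =
          ∑ t ∈ Finset.range m, f (k + 1 + 1 + 2 * t) / (2 * (((i + 1 : ℕ) : ℝ) + t)) := by
        refine Finset.sum_congr rfl fun t _ => ?_
        have e1 : k + 2 * (t + 1) = k + 1 + 1 + 2 * t := by ring
        rw [e1]
        push_cast
        congr 2
        ring
      rw [hs]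
      simp only [us2, mul_zero, add_zero, Nat.cast_zero]
      push_cast at ih ⊢
      rw [mul_add, ← mul_div_assoc]
      set A := D * ∑ t ∈ Finset.range m, f (k + 1 + 1 + 2 * t) / (2 * ((i : ℝ) + 1 + t)) with hA'
      set B := ((us2 (i + 1) m l : ℤ) : ℝ) with hB'
      have e5 : A + D * f k / (2 * (i : ℝ)) - (((a / (2 * (i : ℤ)) : ℤ) : ℝ) + B) =
          (A - B) + (D * f k / (2 * (i : ℝ)) - ((a / (2 * (i : ℤ)) : ℤ) : ℝ)) := by ring
      rw [e5]
      refine le_trans (abs_add_le _ _) ?_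
      linarith

theorem vf_eq (m : ℕ) (s lo hi : ℝ) (j : ℕ) : Vf m s lo hi 0 j =
    ∑ t ∈ Finset.range m, Jf s lo hi 0 (j + 2 + 2 * t) / (2 * (((1 : ℕ) : ℝ) + t)) := by
  unfold Vf Jf Umm
  have h : ∀ x : ℝ, (x - s) ^ 0 * x ^ j *
      (∑ k ∈ Finset.range m, x ^ (2 * (k + 1)) / (2 * ((k : ℝ) + 1))) =
      ∑ k ∈ Finset.range m, ((x - s) ^ 0 * x ^ (j + 2 + 2 * k)) / (2 * (((1 : ℕ) : ℝ) + k)) := by
    intro x
    rw [Finset.mul_sum]
    refine Finset.sum_congr rfl fun k _ => ?_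
    have e1 : (2 : ℝ) * (((1 : ℕ) : ℝ) + k) = 2 * ((k : ℝ) + 1) := by push_cast; ring
    rw [e1, mul_div_assoc']
    congr 1
    ring
  simp only [h]
  rw [intervalIntegral.integral_finsetSum]
  · refine Finset.sum_congr rfl fun k _ => ?_
    rw [intervalIntegral.integral_div]
  · intro k _
    exact Continuous.intervalIntegrable (by fun_prop) _ _

theorem vrow_gen (D : ℤ) (ε s lo hi : ℝ) (m : ℕ) (hε : 0 ≤ ε) : ∀ (c j : ℕ) (l : List ℤ),
    Apx D ε (Jf s lo hi 0) j l → c + 2 * m ≤ l.length →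
    Apx D (m * (ε / 2 + 1)) (Vf m s lo hi 0) j (vrow m c l)
  | 0, j, l, _, _ => trivial
  | c + 1, j, l, hA, hl => by
      refine ⟨?_, ?_⟩
      · rw [vf_eq]
        refine us2_err D ε _ hε m 1 (j + 2) l.tail.tail le_rfl ?_ ?_
        · simp only [List.length_tail]
          omega
        · exact apx_tail _ _ _ _ _ (apx_tail _ _ _ _ _ hA)
      · refine vrow_gen D ε s lo hi m hε c (j + 1) l.tail (apx_tail _ _ _ _ _ hA) ?_
        simp only [List.length_tail]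
        omega

theorem vrow_ok : S_VROW := by
  intro D ε s lo hi m c l _ hε hA hl
  exact vrow_gen D ε s lo hi m hε c 0 l hA hl

end Pool.Agent.W305.WQ
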